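import Pool.Agent.H295R2.L

set_option autoImplicit false

open MeasureTheory Filter Topology Set Metric

namespace Pool.Agent.W190.Q306

open Pool.Agent.H295R2

noncomputable section

/-- `-ζ'/ζ(s) - ζ(s)`, continued through `s = 1` -/
def gz (s : ℂ) : ℂ := -(deriv Zs s / Zs s) - dslope Zs 1 s

lemma Zs_one : Zs 1 = 1 := by
  rw [Zs, riemannZeta₁_one]

lemma gz_eq {s : ℂ} (hs : s ≠ 1) (h0 : riemannZeta s ≠ 0) :
    gz s = -(deriv riemannZeta s / riemannZeta s) - riemannZeta s := by
  have hs1 : s - 1 ≠ 0 := sub_ne_zero.2 hs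
  have hev : Zs =ᶠ[𝓝 s] fun z => (z - 1) * riemannZeta z := by
    filter_upwards [isOpen_ne.mem_nhds hs] with z hz
    exact (Zs_eq hz).symm
  have hd : deriv Zs s = riemannZeta s + (s - 1) * deriv riemannZeta s := by
    rw [hev.deriv_eq]
    have h1 : HasDerivAt (fun z : ℂ => z - 1) 1 s := (hasDerivAt_id s).sub_const 1
    have h2 : HasDerivAt riemannZeta (deriv riemannZeta s) s := (differentiableAt_riemannZeta hs).hasDerivAt
    have h3 := (h1.fun_mul h2).deriv
    rw [h3]; ring
  unfold gz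
  rw [dslope_of_ne _ hs, slope_def_field, Zs_one, hd, ← Zs_eq hs]
  field_simp
  ring

lemma gz_differentiableAt {s : ℂ} (hs : Zs s ≠ 0) : DifferentiableAt ℂ gz s := by
  have h1 : DifferentiableAt ℂ (deriv Zs) s := (Zs_differentiable.analyticAt s).deriv.differentiableAt
  have h2 : Differentiable ℂ (dslope Zs 1) := by
    have := (Complex.differentiableOn_dslope (f := Zs) (s := univ) (c := 1) univ_mem).2
      Zs_differentiable.differentiableOn
    exact differentiableOn_univ.1 this
  exact ((h1.div (Zs_differentiable s) hs).neg).sub (h2 s)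

/-- `-ζ'/ζ - ζ` is `O(|t| ^ ε)` in a zero-free half plane. -/
theorem gz_bound {θ σ ε : ℝ} (hθ : 1 / 4 ≤ θ) (hz : ∀ s : ℂ, θ < s.re → Zs s ≠ 0) (hσ : θ < σ)
    (hσ1 : σ ≤ 1) (hε : 0 < ε) :
    ∃ C : ℝ, 0 < C ∧ ∀ s : ℂ, σ ≤ s.re → s.re ≤ 2 → ‖gz s‖ ≤ C * (1 + |s.im|) ^ ε := by
  set R : ℝ := 2 - (θ + σ) / 2 with hR
  set R' : ℝ := 2 - (θ + 3 * σ) / 4 with hR'
  have hRR' : R' < R := by rw [hR, hR']; linarith
  have hR'1 : 1 < R' := by rw [hR']; linarith
  have hrR' : 2 - σ < R' := by rw [hR']; linarith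
  have hR1 : 1 < R := by linarith
  have hR2 : R < 2 := by rw [hR]; linarith
  set q : ℝ := 2 * R' / (R - R') with hq
  have hq0 : 0 < q := by
    have : 0 < R - R' := by linarith
    positivity
  set ε0 : ℝ := ε / (q + 1) with hε0d
  have hε0 : 0 < ε0 := by positivity
  have hqε : q * ε0 ≤ ε := by
    rw [hε0d, mul_div_assoc', div_le_iff₀ (by positivity)]
    nlinarith
  obtain ⟨K, hK1, hK⟩ := zeta_bounds (a := 17 / 16) (by norm_num)
  have hlogK : 0 ≤ Real.log K := Real.log_nonneg hK1
  obtain ⟨Cf, hCf0, hCf⟩ := fz_bound (θ := θ) (σ := (θ + σ) / 2) (ε := ε0) hθ hz (by linarith) hε0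
  set C1 : ℝ := Cf + K + 2 with hC1
  have hC1' : 1 ≤ C1 := by rw [hC1]; linarith
  have hlogC1 : 0 < Real.log C1 := Real.log_pos (by rw [hC1]; linarith)
  have hfz : ∀ s : ℂ, (θ + σ) / 2 ≤ s.re → ‖fz s‖ ≤ C1 * (1 + |s.im|) ^ ε0 := by
    intro s hs
    have hge : (1:ℝ) ≤ (1 + |s.im|) ^ ε0 := Real.one_le_rpow (by linarith [abs_nonneg s.im]) hε0.le
    rcases le_or_gt s.re 2 with h | h
    · refine (hCf s hs h).trans ?_
      have : Cf ≤ C1 := by rw [hC1]; linarith
      gcongr
    · have := (hK s (by linarith)).2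
      have h2 : K ≤ C1 := by rw [hC1]; linarith
      nlinarith
  set B0 : ℝ := (Real.log K + 4) * (R + R') / (R - R') with hB0
  have hB00 : 0 ≤ B0 := by
    have : 0 < R - R' := by linarith
    positivity
  set D0 : ℝ := R' - (2 - σ) with hD0
  have hD00 : 0 < D0 := by rw [hD0]; linarith
  have main : ∀ s : ℂ, σ ≤ s.re → s.re ≤ 2 → 4 ≤ |s.im| →
      ‖gz s‖ ≤ (q * (Real.log C1 + ε0 * Real.log (|s.im| + 4)) + B0) / D0 +
        Real.exp (q * (Real.log C1 + ε0 * Real.log (|s.im| + 4)) + B0) := by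
    intro s hs1 hs2 ht
    set t : ℝ := s.im with htdef
    set c : ℂ := ⟨2, t⟩ with hc
    set f0 : ℂ → ℂ := fun z => fz (c + z) with hf0
    have hcre : c.re = 2 := rfl
    have hcim : c.im = t := rfl
    have hgeo : ∀ z ∈ ball (0:ℂ) R, (θ + σ) / 2 < (c + z).re ∧ |t| - 2 ≤ |(c + z).im| ∧ |(c+z).im| ≤ |t| + 2 := by
      intro z hz'
      rw [mem_ball_zero_iff] at hz'
      have h1 := Complex.abs_re_le_norm z
      have h2 := Complex.abs_im_le_norm z
      have h3 := abs_le.mp (h1.trans hz'.le)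
      have h5 : |z.im| ≤ 2 := by linarith
      rw [Complex.add_re, Complex.add_im, hcre, hcim]
      refine ⟨?_, ?_, ?_⟩
      · have h6 : |z.re| < R := lt_of_le_of_lt h1 hz'
        have := (abs_lt.1 h6).1
        rw [hR] at this
        linarith
      · have := abs_sub_abs_le_abs_sub t (-z.im)
        rw [abs_neg, sub_neg_eq_add] at this
        linarith
      · have := abs_add_le t z.im
        linarith
    have hne1 : ∀ z ∈ ball (0:ℂ) R, c + z ≠ 1 := by
      intro z hz' h
      have := (hgeo z hz').2.1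
      rw [h] at this
      simp at this
      linarith
    have hZne : ∀ z ∈ ball (0:ℂ) R, Zs (c + z) ≠ 0 := by
      intro z hz'
      exact hz _ (by have := (hgeo z hz').1; linarith)
    have hzne : ∀ z ∈ ball (0:ℂ) R, riemannZeta (c + z) ≠ 0 := by
      intro z hz' h
      apply hZne z hz'
      rw [← Zs_eq (hne1 z hz'), h, mul_zero]
    have hf0d : DifferentiableOn ℂ f0 (ball 0 R) := by
      intro z hz'
      refine DifferentiableAt.differentiableWithinAt ?_
      have := fz_differentiableAt (hZne z hz')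
      exact DifferentiableAt.comp z (g := fz) (f := fun z => c + z) this (by fun_prop)
    have hf0ne : ∀ z ∈ ball (0:ℂ) R, f0 z ≠ 0 := by
      intro z hz'
      rw [hf0]
      simp only
      rw [fz_eq (hne1 z hz')]
      exact inv_ne_zero (hzne z hz')
    obtain ⟨L, hLd, hLexp, hL0⟩ := exists_log_ball (by linarith) hf0d hf0ne
    have hLre : ∀ z ∈ ball (0:ℂ) R, (L z).re = Real.log ‖f0 z‖ := by
      intro z hz'
      rw [← hLexp z hz', Complex.norm_exp, Real.log_exp]
    have hL00 : ‖L 0‖ ≤ Real.log K + 4 := by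
      rw [hL0]
      have hc0 : 17 / 16 ≤ (c + 0).re := by rw [add_zero, hcre]; norm_num
      have h0 : (0:ℂ) ∈ ball (0:ℂ) R := mem_ball_self (by linarith)
      refine norm_log_le hK1 (hK _ hc0).2 ?_ (hf0ne 0 h0)
      have := (hK _ hc0).1
      rw [hf0]
      simp only
      rw [fz_eq (hne1 0 h0), inv_inv]
      exact this
    set A : ℝ := Real.log C1 + ε0 * Real.log (|t| + 4) with hA
    have hlogt : 0 ≤ Real.log (|t| + 4) := Real.log_nonneg (by linarith [abs_nonneg t])
    have hApos : 0 < A := by rw [hA]; positivity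
    have hupper : MapsTo L (ball 0 R) {z | z.re ≤ A} := by
      intro z hz'
      obtain ⟨g1, g2, g3⟩ := hgeo z hz'
      change (L z).re ≤ A
      rw [hLre z hz']
      have h1 := hfz (c + z) g1.le
      have h2 : C1 * (1 + |(c + z).im|) ^ ε0 ≤ C1 * (|t| + 4) ^ ε0 := by
        have : 1 + |(c + z).im| ≤ |t| + 4 := by linarith
        gcongr
      have hf0pos : 0 < ‖f0 z‖ := norm_pos_iff.mpr (hf0ne z hz')
      have h3 : Real.log ‖f0 z‖ ≤ Real.log (C1 * (|t| + 4) ^ ε0) :=
        Real.log_le_log hf0pos (h1.trans h2)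
      rw [Real.log_mul (by linarith) (by positivity), Real.log_rpow (by positivity)] at h3
      exact h3
    have hBC : ∀ z : ℂ, ‖z‖ ≤ R' → ‖L z‖ ≤ q * A + B0 := by
      intro z hz'
      have hzR : z ∈ ball (0:ℂ) R := by rw [mem_ball_zero_iff]; linarith
      have h1 := Complex.borelCaratheodory hApos hLd hupper (by linarith) hzR
      refine h1.trans ?_
      have hd1 : 0 < R - R' := by linarith
      have hd2 : R - R' ≤ R - ‖z‖ := by linarith
      have e1 : 2 * A * ‖z‖ / (R - ‖z‖) ≤ 2 * A * R' / (R - R') := by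
        have : 0 ≤ 2 * A * R' := by positivity
        gcongr
      have e2 : ‖L 0‖ * (R + ‖z‖) / (R - ‖z‖) ≤ (Real.log K + 4) * (R + R') / (R - R') := by
        gcongr
      have e3 : 2 * A * R' / (R - R') = q * A := by rw [hq]; ring
      rw [← e3]
      exact add_le_add e1 e2
    set z : ℂ := ((s.re - 2 : ℝ) : ℂ) with hzdef
    have hcz : c + z = s := by
      apply Complex.ext
      · rw [Complex.add_re, hcre, hzdef, Complex.ofReal_re]; ring
      · rw [Complex.add_im, hcim, hzdef, Complex.ofReal_im, add_zero]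
    have hznorm : ‖z‖ = 2 - s.re := by
      rw [hzdef, Complex.norm_real, Real.norm_eq_abs, abs_of_nonpos (by linarith)]; ring
    have hzR' : ‖z‖ ≤ R' := by rw [hznorm]; linarith
    have hzR : z ∈ ball (0:ℂ) R := by rw [mem_ball_zero_iff, hznorm]; linarith
    have hs1' : s ≠ 1 := by rw [← hcz]; exact hne1 z hzR
    have hzs : riemannZeta s ≠ 0 := by rw [← hcz]; exact hzne z hzR
    -- the value of zeta
    have hzeta : ‖riemannZeta s‖ ≤ Real.exp (q * A + B0) := by
      have e1 : riemannZeta s = Complex.exp (-L z) := by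
        rw [Complex.exp_neg, hLexp z hzR, hf0]
        simp only
        rw [hcz, fz_eq hs1', inv_inv]
      rw [e1, Complex.norm_exp]
      apply Real.exp_le_exp.2
      have h1 := Complex.abs_re_le_norm (-L z)
      rw [norm_neg] at h1
      exact (le_abs_self _).trans (h1.trans (hBC z hzR'))
    -- the derivative of L
    have hdL : deriv L z = -(deriv riemannZeta s / riemannZeta s) := by
      have hev : f0 =ᶠ[𝓝 z] fun w => Complex.exp (L w) := by
        filter_upwards [isOpen_ball.mem_nhds hzR] with w hw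
        exact (hLexp w hw).symm
      have h1 : HasDerivAt L (deriv L z) z := (hLd.differentiableAt (isOpen_ball.mem_nhds hzR)).hasDerivAt
      have h2 : deriv f0 z = Complex.exp (L z) * deriv L z := by
        rw [hev.deriv_eq]; exact h1.cexp.deriv
      have hev2 : f0 =ᶠ[𝓝 z] fun w => (riemannZeta (c + w))⁻¹ := by
        filter_upwards [isOpen_ball.mem_nhds hzR] with w hw
        rw [hf0]; simp only; exact fz_eq (hne1 w hw)
      have h3 : HasDerivAt (fun w => riemannZeta (c + w)) (deriv riemannZeta s) z := by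
        have h4 : HasDerivAt riemannZeta (deriv riemannZeta s) (c + z) := by
          rw [hcz]; exact (differentiableAt_riemannZeta hs1').hasDerivAt
        simpa using h4.comp_const_add c z
      have h5 : deriv f0 z = -deriv riemannZeta s / riemannZeta s ^ 2 := by
        rw [hev2.deriv_eq]
        have := (h3.fun_inv (by rw [hcz]; exact hzs)).deriv
        rw [this, hcz]
      have h6 : Complex.exp (L z) = (riemannZeta s)⁻¹ := by
        rw [hLexp z hzR, hf0]; simp only; rw [hcz, fz_eq hs1']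
      rw [h2, h6] at h5
      field_simp at h5 ⊢
      exact h5
    have hdLb : ‖deriv L z‖ ≤ (q * A + B0) / D0 := by
      apply Complex.norm_deriv_le_of_forall_mem_sphere_norm_le hD00
      · refine DifferentiableOn.diffContOnCl ?_
        refine hLd.mono ?_
        intro w hw
        have hw' := closure_ball_subset_closedBall hw
        rw [mem_closedBall, dist_eq_norm] at hw'
        rw [mem_ball_zero_iff]
        have : ‖w‖ ≤ ‖w - z‖ + ‖z‖ := by
          calc ‖w‖ = ‖(w - z) + z‖ := by ring_nf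
            _ ≤ _ := norm_add_le _ _
        rw [hznorm] at this
        rw [hD0] at hw'
        linarith
      · intro w hw
        rw [mem_sphere, dist_eq_norm] at hw
        apply hBC
        have : ‖w‖ ≤ ‖w - z‖ + ‖z‖ := by
          calc ‖w‖ = ‖(w - z) + z‖ := by ring_nf
            _ ≤ _ := norm_add_le _ _
        rw [hznorm, hw, hD0] at this
        linarith
    rw [gz_eq hs1' hzs, ← hdL]
    exact (norm_sub_le _ _).trans (add_le_add hdLb hzeta)
  -- compact part
  set Q : Set ℂ := Complex.reProdIm (Icc σ 2) (Icc (-4) 4) with hQ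
  have hQc : IsCompact Q := isCompact_Icc.reProdIm isCompact_Icc
  have hcont : ContinuousOn gz Q := by
    intro s hs
    rw [hQ, Complex.mem_reProdIm] at hs
    have := hz s (by linarith [hs.1.1])
    exact (gz_differentiableAt this).continuousAt.continuousWithinAt
  obtain ⟨M0, hM0⟩ := hQc.exists_bound_of_continuousOn hcont
  -- bound of the logarithm by a power
  set A1 : ℝ := (q * Real.log C1 + B0) / D0 + q * ε0 * (4 ^ ε / ε) / D0 with hA1
  have hA10 : 0 ≤ A1 := by positivity
  set A2 : ℝ := Real.exp (q * Real.log C1 + B0) * 4 ^ ε with hA2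
  have hA20 : 0 ≤ A2 := by positivity
  refine ⟨max M0 0 + A1 + A2 + 1, by positivity, ?_⟩
  intro s hs1 hs2
  have hge : (1:ℝ) ≤ (1 + |s.im|) ^ ε := Real.one_le_rpow (by linarith [abs_nonneg s.im]) hε.le
  have hm0 : 0 ≤ max M0 0 := le_max_right _ _
  rcases le_or_gt 4 |s.im| with h | h
  · have h1 := main s hs1 hs2 h
    have h4 : |s.im| + 4 ≤ 4 * (1 + |s.im|) := by linarith
    have hp : 0 < |s.im| + 4 := by positivity
    have h5 : (|s.im| + 4) ^ ε ≤ 4 ^ ε * (1 + |s.im|) ^ ε := by
      rw [← Real.mul_rpow (by norm_num) (by positivity)]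
      gcongr
    have h6 : Real.log (|s.im| + 4) ≤ 4 ^ ε / ε * (1 + |s.im|) ^ ε := by
      calc Real.log (|s.im| + 4) ≤ (|s.im| + 4) ^ ε / ε := Real.log_le_rpow_div hp.le hε
        _ ≤ (4 ^ ε * (1 + |s.im|) ^ ε) / ε := by gcongr
        _ = _ := by ring
    have h7 : (q * (Real.log C1 + ε0 * Real.log (|s.im| + 4)) + B0) / D0 ≤ A1 * (1 + |s.im|) ^ ε := by
      have e1 : (q * (Real.log C1 + ε0 * Real.log (|s.im| + 4)) + B0) / D0 =
          (q * Real.log C1 + B0) / D0 + q * ε0 * Real.log (|s.im| + 4) / D0 := by ring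
      rw [e1, hA1, add_mul]
      refine add_le_add ?_ ?_
      · have : 0 ≤ (q * Real.log C1 + B0) / D0 := by positivity
        nlinarith
      · calc q * ε0 * Real.log (|s.im| + 4) / D0 ≤ q * ε0 * (4 ^ ε / ε * (1 + |s.im|) ^ ε) / D0 := by gcongr
          _ = _ := by ring
    have h8 : Real.exp (q * (Real.log C1 + ε0 * Real.log (|s.im| + 4)) + B0) ≤ A2 * (1 + |s.im|) ^ ε := by
      have hl0 : 0 ≤ Real.log (|s.im| + 4) := Real.log_nonneg (by linarith)
      calc Real.exp (q * (Real.log C1 + ε0 * Real.log (|s.im| + 4)) + B0)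
          ≤ Real.exp ((q * Real.log C1 + B0) + Real.log (|s.im| + 4) * ε) := by
            apply Real.exp_le_exp.2
            nlinarith
        _ = Real.exp (q * Real.log C1 + B0) * (|s.im| + 4) ^ ε := by
            rw [Real.exp_add, Real.rpow_def_of_pos hp]
        _ ≤ Real.exp (q * Real.log C1 + B0) * (4 ^ ε * (1 + |s.im|) ^ ε) := by gcongr
        _ = _ := by rw [hA2]; ring
    nlinarith
  · have hsQ : s ∈ Q := by
      rw [hQ, Complex.mem_reProdIm]
      have := abs_lt.mp h
      exact ⟨⟨hs1, hs2⟩, ⟨this.1.le, this.2.le⟩⟩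
    have h1 := hM0 s hsQ
    have h2 : M0 ≤ max M0 0 := le_max_left _ _
    nlinarith

end

end Pool.Agent.W190.Q306
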