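import Pool.Agent.H295R2.M
import Pool.Agent.W190.Q306.A1

set_option autoImplicit false

open MeasureTheory Filter Topology Set

namespace Pool.Agent.W190.Q306

open Pool.Agent.H295R2

noncomputable section

/-- The integrand in the Perron formula. -/
def PG (η x : ℝ) (k : ℝ → ℂ) (F : ℂ → ℂ) (s : ℂ) : ℂ :=
  Lap k s * phi η s ^ 2 * Complex.exp (s * x) * F s

lemma PG_bound {η x σ : ℝ} {k : ℝ → ℂ} {F : ℂ → ℂ} {C u₀ Cf : ℝ} (h : Nice k C 0 u₀) (hη : 0 < η) (hη1 : η ≤ 1)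
    (hσ : 0 < σ)
    (hf : ∀ s : ℂ, σ ≤ s.re → s.re ≤ 2 → ‖F s‖ ≤ Cf * (1 + |s.im|) ^ (1 / 2 : ℝ)) :
    ∃ B : ℝ, ∀ s : ℂ, σ ≤ s.re → s.re ≤ 2 → ‖PG η x k F s‖ ≤ B * (1 + |s.im|) ^ (-(3 / 2 : ℝ)) := by
  have hC := h.C_nonneg
  refine ⟨(C * Real.exp (2 * |u₀|) / σ) * (1000 / η ^ 2) * Real.exp (2 * |x|) * Cf, fun s hs1 hs2 => ?_⟩
  have hre : 0 < s.re := by linarith
  have hCf : 0 ≤ Cf := by
    have h1 := (norm_nonneg _).trans (hf s hs1 hs2)
    have h2 : 0 < (1 + |s.im|) ^ (1 / 2 : ℝ) := by positivity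
    exact nonneg_of_mul_nonneg_left h1 h2
  have h1 : ‖Lap k s‖ ≤ C * Real.exp (2 * |u₀|) / σ := by
    have h2 := h.norm_Lap_le hre
    refine h2.trans ?_
    have h3 : (0 - s.re) * u₀ ≤ 2 * |u₀| := by
      have h5 := neg_abs_le u₀
      have h6 := abs_nonneg u₀
      nlinarith
    have h4 : σ ≤ s.re - 0 := by linarith
    gcongr
  have h2 := norm_phi_sq_le hη hη1 hre hs2
  have h3 : ‖Complex.exp (s * x)‖ ≤ Real.exp (2 * |x|) := by
    rw [Complex.norm_exp]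
    apply Real.exp_le_exp.mpr
    simp only [Complex.mul_re, Complex.ofReal_re, Complex.ofReal_im, mul_zero, sub_zero]
    have h5 := le_abs_self x
    have h6 := abs_nonneg x
    nlinarith
  have h4 := hf s hs1 hs2
  unfold PG
  rw [norm_mul, norm_mul, norm_mul, norm_pow]
  have e1 : (1 + |s.im|) ^ (-2 : ℝ) * (1 + |s.im|) ^ (1 / 2 : ℝ) = (1 + |s.im|) ^ (-(3 / 2 : ℝ)) := by
    rw [← Real.rpow_add (by positivity)]
    norm_num
  calc ‖Lap k s‖ * ‖phi η s‖ ^ 2 * ‖Complex.exp (s * x)‖ * ‖F s‖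
      ≤ (C * Real.exp (2 * |u₀|) / σ) * ((1000 / η ^ 2) * (1 + |s.im|) ^ (-2 : ℝ)) *
          Real.exp (2 * |x|) * (Cf * (1 + |s.im|) ^ (1 / 2 : ℝ)) := by gcongr
    _ = (C * Real.exp (2 * |u₀|) / σ) * (1000 / η ^ 2) * Real.exp (2 * |x|) * Cf *
          ((1 + |s.im|) ^ (-2 : ℝ) * (1 + |s.im|) ^ (1 / 2 : ℝ)) := by ring
    _ = _ := by rw [e1]

/-- **Perron formula** for the doubly averaged kernel and a general Dirichlet series. -/
theorem perron_gen {σ η x : ℝ} {k : ℝ → ℂ} {F : ℂ → ℂ} {a : ℕ → ℂ} {C u₀ Cf : ℝ} (hσ0 : 0 < σ) (hσ2 : σ ≤ 2)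
    (hFd : ∀ s : ℂ, σ ≤ s.re → s.re ≤ 2 → DifferentiableAt ℂ F s)
    (hFb : ∀ s : ℂ, σ ≤ s.re → s.re ≤ 2 → ‖F s‖ ≤ Cf * (1 + |s.im|) ^ (1 / 2 : ℝ))
    (hasum : Summable (fun n : ℕ => ‖a n‖ * (1 / (n:ℝ) ^ 2)))
    (ha0 : a 0 = 0)
    (hser : ∀ s : ℂ, s.re = 2 → LSeries a s = F s)
    (h : Nice k C 0 u₀) (hη : 0 < η) (hη1 : η ≤ 1) :
    HasSum (fun m : ℕ => a m * avg η (avg η k) (x - Real.log m))
      (∫ ξ : ℝ, PG η x k F (σ + 2 * Real.pi * ξ * Complex.I)) := by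
  obtain ⟨B, hB⟩ := PG_bound (x := x) h hη hη1 hσ0 hFb
  have hd : ∀ s : ℂ, σ ≤ s.re → s.re ≤ 2 → DifferentiableAt ℂ (PG η x k F) s := by
    intro s hs1 hs2
    have hs0 : s ≠ 0 := by rintro rfl; simp at hs1; linarith
    unfold PG
    have e1 : DifferentiableAt ℂ (Lap k) s := h.Lap_differentiableAt (by linarith)
    have e2 := phi_differentiableAt hη hs0
    have e3 := hFd s hs1 hs2
    fun_prop
  -- shift the line
  have hshift := contour_shift hσ2 hd hB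
  have hline : ∫ ξ : ℝ, PG η x k F (σ + 2 * Real.pi * ξ * Complex.I) =
      ∫ ξ : ℝ, PG η x k F ((2:ℝ) + 2 * Real.pi * ξ * Complex.I) := by
    rw [scale_integral, scale_integral, hshift]
  rw [hline]
  -- the formula on Re s = 2
  set k1 := avg η k with hk1
  set k2 := avg η k1 with hk2
  have hn1 : Nice k1 C 0 (u₀ - η) := h.avg hη
  have hn2 : Nice k2 C 0 (u₀ - η - η) := hn1.avg hη
  have hLap2 : ∀ s : ℂ, 0 < s.re → Lap k2 s = Lap k s * phi η s ^ 2 := by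
    intro s hs
    rw [hk2, hn1.Lap_avg hη hs, hk1, h.Lap_avg hη hs]
    ring
  set G : ℂ → ℂ := fun s => Lap k2 s * Complex.exp (s * x) with hG
  -- bound for G on Re s = 2
  have hre2 : ∀ ξ : ℝ, (((2:ℝ) : ℂ) + 2 * Real.pi * ξ * Complex.I).re = 2 := by
    intro ξ; simp
  have hre2' : ∀ y : ℝ, (((2:ℝ) : ℂ) + y * Complex.I).re = 2 := by
    intro ξ; simp
  have hLint : Integrable (fun ξ : ℝ => Lap k2 ((2:ℝ) + 2 * Real.pi * ξ * Complex.I)) := by
    refine scale_integrable (H := Lap k2) ?_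
    refine vertical_integrable (B := C * Real.exp (2 * |u₀|) / 2 * (1000 / η ^ 2)) ?_ ?_
    · intro s hs
      exact (hn2.Lap_differentiableAt (by rw [hs]; norm_num)).continuousAt
    · intro s hs
      have hs0 : 0 < s.re := by rw [hs]; norm_num
      rw [hLap2 s hs0, norm_mul, norm_pow]
      have h1 : ‖Lap k s‖ ≤ C * Real.exp (2 * |u₀|) / 2 := by
        have h2 := h.norm_Lap_le hs0
        rw [hs] at h2
        refine h2.trans ?_
        have h3 : (0 - 2) * u₀ ≤ 2 * |u₀| := by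
          have h5 := neg_abs_le u₀
          linarith
        have hC := h.C_nonneg
        rw [sub_zero]
        gcongr
      have h2 := norm_phi_sq_le hη hη1 hs0 hs.le
      have h3 : (1 + |s.im|) ^ (-2 : ℝ) ≤ (1 + |s.im|) ^ (-(3 / 2 : ℝ)) :=
        Real.rpow_le_rpow_of_exponent_le (by linarith [abs_nonneg s.im]) (by norm_num)
      have hC := h.C_nonneg
      calc ‖Lap k s‖ * ‖phi η s‖ ^ 2 ≤ (C * Real.exp (2 * |u₀|) / 2) *
            ((1000 / η ^ 2) * (1 + |s.im|) ^ (-2 : ℝ)) := by gcongr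
        _ ≤ (C * Real.exp (2 * |u₀|) / 2) * ((1000 / η ^ 2) * (1 + |s.im|) ^ (-(3 / 2 : ℝ))) := by gcongr
        _ = _ := by ring
  set F' : ℕ → ℝ → ℂ := fun m ξ => Lap k2 ((2:ℝ) + 2 * Real.pi * ξ * Complex.I) *
      Complex.exp (((2:ℝ) + 2 * Real.pi * ξ * Complex.I) * x) *
      LSeries.term a ((2:ℝ) + 2 * Real.pi * ξ * Complex.I) m with hF'
  have hFeq : ∀ m : ℕ, ∀ ξ : ℝ, F' m ξ = a m *
      (Lap k2 ((2:ℝ) + 2 * Real.pi * ξ * Complex.I) *
      Complex.exp (((2:ℝ) + 2 * Real.pi * ξ * Complex.I) * ((x - Real.log m : ℝ) : ℂ))) := by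
    intro m ξ
    rcases Nat.eq_zero_or_pos m with rfl | hm
    · simp [hF', LSeries.term, ha0]
    · have hm0 : (m : ℂ) ≠ 0 := by exact_mod_cast hm.ne'
      rw [hF']
      simp only
      rw [LSeries.term_of_ne_zero hm.ne']
      have e1 : Complex.exp (((2:ℝ) + 2 * Real.pi * ξ * Complex.I) * ((x - Real.log m : ℝ) : ℂ)) =
          Complex.exp (((2:ℝ) + 2 * Real.pi * ξ * Complex.I) * x) /
            (m : ℂ) ^ (((2:ℝ) : ℂ) + 2 * Real.pi * ξ * Complex.I) := by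
        rw [Complex.cpow_def_of_ne_zero hm0, ← Complex.exp_sub]
        congr 1
        rw [Complex.ofReal_sub, Complex.natCast_log]
        ring
      rw [e1]
      ring
  have hFnorm : ∀ m : ℕ, ∀ ξ : ℝ, ‖F' m ξ‖ ≤ (Real.exp (2 * x) * (‖a m‖ * (1 / (m:ℝ) ^ 2))) *
      ‖Lap k2 ((2:ℝ) + 2 * Real.pi * ξ * Complex.I)‖ := by
    intro m ξ
    rw [hF']
    simp only
    rw [norm_mul, norm_mul]
    have e1 : ‖Complex.exp (((2:ℝ) + 2 * Real.pi * ξ * Complex.I) * x)‖ = Real.exp (2 * x) := by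
      rw [Complex.norm_exp]; congr 1; simp
    have e2 : ‖LSeries.term a (((2:ℝ) : ℂ) + 2 * Real.pi * ξ * Complex.I) m‖ ≤ ‖a m‖ * (1 / (m:ℝ) ^ 2) := by
      rw [LSeries.norm_term_eq, hre2]
      split_ifs with hm
      · positivity
      · have h2 : (m:ℝ) ^ (2:ℝ) = (m:ℝ) ^ 2 := by norm_num
        rw [h2, mul_one_div]
    rw [e1]
    have h3 : 0 ≤ ‖Lap k2 ((2:ℝ) + 2 * Real.pi * ξ * Complex.I)‖ := norm_nonneg _
    have h4 : 0 < Real.exp (2 * x) := Real.exp_pos _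
    calc _ ≤ ‖Lap k2 ((2:ℝ) + 2 * Real.pi * ξ * Complex.I)‖ * Real.exp (2 * x) * (‖a m‖ * (1 / (m:ℝ) ^ 2)) := by
          gcongr
      _ = _ := by ring
  have hFint : ∀ m : ℕ, Integrable (F' m) := by
    intro m
    refine (hLint.norm.const_mul (Real.exp (2 * x) * (‖a m‖ * (1 / (m:ℝ) ^ 2)))).mono' ?_
      (Eventually.of_forall fun ξ => hFnorm m ξ)
    have : F' m = fun ξ : ℝ => a m *
      (Lap k2 ((2:ℝ) + 2 * Real.pi * ξ * Complex.I) *
      Complex.exp (((2:ℝ) + 2 * Real.pi * ξ * Complex.I) * ((x - Real.log m : ℝ) : ℂ))) := by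
      ext ξ; exact hFeq m ξ
    rw [this]
    refine AEStronglyMeasurable.const_mul ?_ _
    refine hLint.aestronglyMeasurable.mul (Continuous.aestronglyMeasurable ?_)
    fun_prop
  have hFsum : Summable (fun m : ℕ => ∫ ξ, ‖F' m ξ‖) := by
    refine Summable.of_nonneg_of_le (fun m => integral_nonneg fun ξ => norm_nonneg _)
      (f := fun m : ℕ => (Real.exp (2 * x) * ∫ ξ : ℝ, ‖Lap k2 ((2:ℝ) + 2 * Real.pi * ξ * Complex.I)‖) *
        (‖a m‖ * (1 / (m:ℝ) ^ 2))) ?_ ?_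
    · intro m
      calc ∫ ξ, ‖F' m ξ‖ ≤ ∫ ξ : ℝ, (Real.exp (2 * x) * (‖a m‖ * (1 / (m:ℝ) ^ 2))) *
            ‖Lap k2 ((2:ℝ) + 2 * Real.pi * ξ * Complex.I)‖ :=
            integral_mono (hFint m).norm (hLint.norm.const_mul _) (hFnorm m)
        _ = _ := by rw [integral_const_mul]; ring
    · exact hasum.mul_left _
  have key := hasSum_integral_of_summable_integral_norm hFint hFsum
  have e1 : ∀ m : ℕ, ∫ ξ, F' m ξ = a m * k2 (x - Real.log m) := by
    intro m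
    simp_rw [hFeq]
    rw [integral_const_mul]
    congr 1
    exact (inversion hn2 (by norm_num : (0:ℝ) < 2) (hn1.avg_continuous η) hLint (x - Real.log m)).symm
  have e2 : ∫ ξ, ∑' m, F' m ξ = ∫ ξ : ℝ, PG η x k F ((2:ℝ) + 2 * Real.pi * ξ * Complex.I) := by
    refine integral_congr_ae (Eventually.of_forall fun ξ => ?_)
    simp only [hF']
    rw [tsum_mul_left]
    have h1 := hser (((2:ℝ) : ℂ) + 2 * Real.pi * ξ * Complex.I) (hre2 ξ)
    unfold LSeries at h1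
    rw [h1]
    unfold PG
    rw [hLap2 _ (by rw [hre2]; norm_num)]
  simp_rw [e1] at key
  rw [e2] at key
  exact key

/-- `Λ(n) - 1` for `n ≥ 1` -/
def aL (n : ℕ) : ℝ := if n = 0 then 0 else ArithmeticFunction.vonMangoldt n - 1

lemma aL_series (s : ℂ) (hs : 1 < s.re) :
    LSeries (fun n => (aL n : ℂ)) s = -(deriv riemannZeta s / riemannZeta s) - riemannZeta s := by
  have h1 : LSeriesSummable (fun n => ((ArithmeticFunction.vonMangoldt n : ℝ) : ℂ)) s :=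
    ArithmeticFunction.LSeriesSummable_vonMangoldt hs
  have h2 : LSeriesSummable (fun _ => (1:ℂ)) s :=
    LSeriesSummable_of_bounded_of_one_lt_re (m := 1) (fun n _ => by simp) hs
  have e1 := ArithmeticFunction.LSeries_vonMangoldt_eq_deriv_riemannZeta_div hs
  have e2 : LSeries (fun _ => (1:ℂ)) s = riemannZeta s := LSeries_one_eq_riemannZeta hs
  rw [← neg_div, ← e1, ← e2, ← LSeries_sub h1 h2]
  refine LSeries_congr (fun {n} hn => ?_) s
  simp only [aL, if_neg hn, Pi.sub_apply]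
  push_cast
  rfl

lemma aL_summable : Summable (fun n : ℕ => ‖((aL n : ℝ) : ℂ)‖ * (1 / (n : ℝ) ^ 2)) := by
  have h1 : LSeriesSummable (fun n => ((ArithmeticFunction.vonMangoldt n : ℝ) : ℂ)) 2 :=
    ArithmeticFunction.LSeriesSummable_vonMangoldt (by norm_num)
  have h2 : Summable (fun n : ℕ => 1 / (n : ℝ) ^ 2) := Real.summable_one_div_nat_pow.2 (by norm_num)
  refine Summable.of_nonneg_of_le (fun n => by positivity) (fun n => ?_) (h1.norm.add h2)
  rw [LSeries.norm_term_eq]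
  by_cases hn : n = 0
  · simp [hn, aL]
  · rw [if_neg hn, Complex.norm_real, Complex.norm_real, Real.norm_eq_abs, Real.norm_eq_abs,
      abs_of_nonneg ArithmeticFunction.vonMangoldt_nonneg, mul_one_div]
    have e : (n : ℝ) ^ (2:ℂ).re = (n:ℝ) ^ 2 := by
      simp
    rw [e, ← add_div]
    refine div_le_div_of_nonneg_right ?_ (by positivity)
    unfold aL
    rw [if_neg hn]
    have := ArithmeticFunction.vonMangoldt_nonneg (n := n)
    calc |ArithmeticFunction.vonMangoldt n - 1| ≤ |ArithmeticFunction.vonMangoldt n| + |1| := abs_sub _ _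
      _ = ArithmeticFunction.vonMangoldt n + 1 := by rw [abs_of_nonneg this, abs_one]

lemma sum_aL (N : ℕ) : ∑ m ∈ Finset.Icc 1 N, aL m = Chebyshev.psi N - N := by
  have e1 : ∑ m ∈ Finset.Icc 1 N, aL m = ∑ m ∈ Finset.Icc 1 N, (ArithmeticFunction.vonMangoldt m - 1) := by
    refine Finset.sum_congr rfl fun m hm => ?_
    rw [Finset.mem_Icc] at hm
    unfold aL
    rw [if_neg (by omega)]
  have e2 : Chebyshev.psi (N:ℝ) = ∑ m ∈ Finset.Icc 1 N, ArithmeticFunction.vonMangoldt m := by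
    unfold Chebyshev.psi
    rw [Nat.floor_natCast]
    rfl
  rw [e1, e2, Finset.sum_sub_distrib]
  simp

/-- `ψ(y) - y ≪ y^σ` in a zero-free half plane. -/
theorem psi_bound {θ σ : ℝ} (hθ : 1 / 4 ≤ θ) (hz : ∀ s : ℂ, θ < s.re → Zs s ≠ 0) (hσ : θ < σ) (hσ2 : σ ≤ 1) :
    ∃ C : ℝ, 0 < C ∧ ∀ y : ℝ, 1 ≤ y → |Chebyshev.psi y - y| ≤ C * y ^ σ := by
  set σ' : ℝ := (θ + σ) / 2 with hσ'
  set ε : ℝ := (σ - σ') / 2 with hε
  have hε0 : 0 < ε := by rw [hε, hσ']; linarith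
  have hε1 : 2 * ε ≤ 1 := by rw [hε, hσ']; linarith
  have h1 : θ < σ' := by rw [hσ']; linarith
  have h2 : σ' ≤ 2 := by rw [hσ']; linarith
  have h2' : σ' ≤ 1 := by rw [hσ']; linarith
  have h14 : 1 / 4 ≤ σ' := by linarith
  have hσ0 : 0 < σ := by linarith
  obtain ⟨Cf, hCf0, hCf⟩ := gz_bound hθ hz h1 h2' hε0
  obtain ⟨Ch, hCh0, hCh⟩ := gz_bound hθ hz h1 h2' (ε := 1 / 2) (by norm_num)
  set I0 : ℝ := ∫ ξ : ℝ, (1 + |2 * Real.pi * ξ|) ^ (-(1 + ε)) with hI0
  have hI0' : 0 ≤ I0 := integral_nonneg fun ξ => by positivity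
  refine ⟨5 * 550 * Cf * I0 + 20 * (20 + 1 / σ) + 1, by positivity, fun y hy => ?_⟩
  have hy0 : 0 < y := by linarith
  set x : ℝ := Real.log y with hx
  set η : ℝ := 1 / y with hη
  have hη0 : 0 < η := by rw [hη]; positivity
  have hη1 : η ≤ 1 := by rw [hη, div_le_one hy0]; exact hy
  have hexpx : Real.exp x = y := by rw [hx, Real.exp_log hy0]
  have key := perron_gen (x := x) (F := gz) (a := fun n => (aL n : ℂ)) (by linarith : 0 < σ') h2
    (fun s hs1 _ => gz_differentiableAt (hz s (by linarith))) hCh aL_summable (by simp [aL])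
    (fun s hs => by
      have hs1 : s ≠ 1 := by rintro rfl; norm_num at hs
      rw [aL_series s (by rw [hs]; norm_num), gz_eq hs1]
      exact riemannZeta_ne_zero_of_one_lt_re (by rw [hs]; norm_num)) step_nice hη0 hη1
  -- the sum is finite
  set k2 := avg η (avg η step) with hk2
  have hn : Nice k2 1 0 (0 - η - η) := (step_nice.avg hη0).avg hη0
  set N : ℕ := ⌊y * Real.exp (2 * η)⌋₊ with hN
  have hzero : ∀ m ∉ Finset.Icc 1 N, ((aL m : ℝ) : ℂ) * k2 (x - Real.log m) = 0 := by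
    intro m hm
    rcases Nat.eq_zero_or_pos m with rfl | hm0
    · simp [aL]
    · have hm1 : N < m := by
        by_contra hcon
        exact hm (Finset.mem_Icc.mpr ⟨hm0, by omega⟩)
      have hm2 : y * Real.exp (2 * η) < m := (Nat.floor_lt (by positivity)).mp hm1
      rw [hn.zero, mul_zero]
      have h3 := Real.log_lt_log (by positivity) hm2
      rw [Real.log_mul hy0.ne' (Real.exp_pos _).ne', Real.log_exp] at h3
      linarith
  have hsum := (hasSum_sum_of_ne_finset_zero hzero).unique key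
  have hfloor : ⌊y⌋₊ ≤ N := by
    rw [hN]
    refine Nat.floor_le_floor ?_
    have : 1 ≤ Real.exp (2 * η) := Real.one_le_exp (by positivity)
    nlinarith
  have hsplit : ∑ m ∈ Finset.Icc 1 N, ((aL m : ℝ) : ℂ) * k2 (x - Real.log m) =
      ((Chebyshev.psi (⌊y⌋₊ : ℝ) - ⌊y⌋₊ : ℝ) : ℂ) + ∑ m ∈ Finset.Ioc ⌊y⌋₊ N, ((aL m : ℝ) : ℂ) * k2 (x - Real.log m) := by
    have e0 : Finset.Icc 1 N = Finset.Icc 1 ⌊y⌋₊ ∪ Finset.Ioc ⌊y⌋₊ N := by
      ext m
      simp only [Finset.mem_Icc, Finset.mem_union, Finset.mem_Ioc]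
      omega
    rw [e0, Finset.sum_union]
    · congr 1
      rw [← sum_aL]
      push_cast
      refine Finset.sum_congr rfl fun m hm => ?_
      rw [Finset.mem_Icc] at hm
      have hm1 : (m:ℝ) ≤ y := (Nat.le_floor_iff hy0.le).mp hm.2
      have hm0 : (0:ℝ) < m := by exact_mod_cast hm.1
      have : 0 ≤ x - Real.log m := by
        have := Real.log_le_log hm0 hm1
        linarith
      rw [hk2, avg2_step_of_nonneg hη0 this, mul_one]
    · rw [Finset.disjoint_left]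
      intro m hm1 hm2
      rw [Finset.mem_Icc] at hm1
      rw [Finset.mem_Ioc] at hm2
      omega
  have hy18 : (N:ℝ) ≤ y + 18 := by
    have h3 : (N:ℝ) ≤ y * Real.exp (2 * η) := Nat.floor_le (by positivity)
    have h5 : Real.exp (2 * η) ≤ 1 + 2 * η * Real.exp (2 * η) := by
      have h6 := Real.add_one_le_exp (-(2 * η))
      have h7 : Real.exp (-(2 * η)) * Real.exp (2 * η) = 1 := by rw [← Real.exp_add]; simp
      nlinarith [Real.exp_pos (2 * η)]
    have h6 : Real.exp (2 * η) ≤ 9 := by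
      calc Real.exp (2 * η) ≤ Real.exp 2 := Real.exp_le_exp.mpr (by linarith)
        _ = Real.exp 1 * Real.exp 1 := by rw [← Real.exp_add]; norm_num
        _ ≤ 9 := by nlinarith [Real.exp_one_lt_d9, Real.exp_pos 1]
    have h7 : y * η = 1 := by rw [hη]; field_simp
    have h8 : y * Real.exp (2 * η) ≤ y + 18 := by
      calc y * Real.exp (2 * η) ≤ y * (1 + 2 * η * 9) := by
            gcongr
            calc Real.exp (2 * η) ≤ 1 + 2 * η * Real.exp (2 * η) := h5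
              _ ≤ 1 + 2 * η * 9 := by gcongr
        _ = y + 18 * (y * η) := by ring
        _ = y + 18 := by rw [h7]; ring
    linarith
  have hlogy : 0 ≤ Real.log y := Real.log_nonneg hy
  have hrest : ‖∑ m ∈ Finset.Ioc ⌊y⌋₊ N, ((aL m : ℝ) : ℂ) * k2 (x - Real.log m)‖ ≤ 20 * (20 + Real.log y) := by
    have hb : ∀ m ∈ Finset.Ioc ⌊y⌋₊ N, ‖((aL m : ℝ) : ℂ) * k2 (x - Real.log m)‖ ≤ 20 + Real.log y := by
      intro m hm
      rw [Finset.mem_Ioc] at hm
      have hm1 : 1 ≤ m := by omega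
      have hm1' : (1:ℝ) ≤ m := by exact_mod_cast hm1
      rw [norm_mul, Complex.norm_real, Real.norm_eq_abs]
      have h3 : |aL m| ≤ 20 + Real.log y := by
        unfold aL
        rw [if_neg (by omega)]
        have a1 := ArithmeticFunction.vonMangoldt_nonneg (n := m)
        have a2 := ArithmeticFunction.vonMangoldt_le_log (n := m)
        have a3 : Real.log m ≤ Real.log y + 18 := by
          have a4 : (m:ℝ) ≤ y * Real.exp 18 := by
            have : (m:ℝ) ≤ N := by exact_mod_cast hm.2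
            have a5 := Real.add_one_le_exp (18:ℝ)
            nlinarith
          have := Real.log_le_log (by linarith) a4
          rwa [Real.log_mul hy0.ne' (Real.exp_pos _).ne', Real.log_exp] at this
        rw [abs_le]
        constructor <;> linarith
      have h4 : ‖k2 (x - Real.log m)‖ ≤ 1 := by simpa using hn.bound (x - Real.log m)
      calc |aL m| * ‖k2 (x - Real.log m)‖ ≤ (20 + Real.log y) * 1 := by gcongr
        _ = _ := mul_one _
    refine (norm_sum_le_of_le _ hb).trans ?_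
    rw [Finset.sum_const, Nat.card_Ioc, nsmul_eq_mul, Nat.cast_sub hfloor]
    have h4 : y - 1 < ⌊y⌋₊ := Nat.sub_one_lt_floor y
    have : (N:ℝ) - ⌊y⌋₊ ≤ 20 := by linarith
    gcongr
  -- bound of the integral
  have hint : ‖∫ ξ : ℝ, PG η x step gz (σ' + 2 * Real.pi * ξ * Complex.I)‖ ≤
      5 * 550 * Cf * I0 * y ^ σ := by
    have hpt : ∀ ξ : ℝ, ‖PG η x step gz (σ' + 2 * Real.pi * ξ * Complex.I)‖ ≤
        (5 * 550 * Cf * y ^ σ) * (1 + |2 * Real.pi * ξ|) ^ (-(1 + ε)) := by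
      intro ξ
      set s : ℂ := σ' + 2 * Real.pi * ξ * Complex.I with hs
      have hsre : s.re = σ' := line_re σ' ξ
      have hsim : s.im = 2 * Real.pi * ξ := line_im σ' ξ
      set T : ℝ := 1 + |2 * Real.pi * ξ| with hT
      have hT0 : 0 < T := by rw [hT]; positivity
      unfold PG
      rw [norm_mul, norm_mul, norm_mul, norm_pow, Lap_step (by rw [hsre]; linarith)]
      have a1 : ‖1 / s‖ ≤ 5 * T ^ (-(1:ℝ)) := by
        rw [norm_div, norm_one, Real.rpow_neg hT0.le, Real.rpow_one]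
        have hs0 : 1 / 4 ≤ ‖s‖ := by
          have := Complex.abs_re_le_norm s
          rw [hsre] at this
          exact h14.trans ((le_abs_self _).trans this)
        have hs1 : |2 * Real.pi * ξ| ≤ ‖s‖ := by rw [← hsim]; exact Complex.abs_im_le_norm s
        rw [← div_eq_mul_inv, div_le_div_iff₀ (by linarith) hT0]
        rw [hT]; linarith
      have a2 : ‖phi η s‖ ^ 2 ≤ 550 * (η * T) ^ (-(2 * ε)) := by
        have := norm_phi_pow (a := 2 * ε) hη0 hη1 (s := s) (by rw [hsre]; exact h14) (by rw [hsre]; exact h2)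
          (by positivity) hε1
        rw [hsim] at this
        exact this
      have a3 : ‖Complex.exp (s * x)‖ = y ^ σ' := by
        rw [Complex.norm_exp]
        simp only [Complex.mul_re, Complex.ofReal_re, Complex.ofReal_im, mul_zero, sub_zero, hsre]
        rw [Real.rpow_def_of_pos hy0, mul_comm]
      have a4 : ‖gz s‖ ≤ Cf * T ^ ε := by
        have := hCf s (by rw [hsre]) (by rw [hsre]; exact h2)
        rw [hsim] at this
        exact this
      rw [a3]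
      have e1 : (η * T) ^ (-(2 * ε)) = y ^ (2 * ε) * T ^ (-(2 * ε)) := by
        rw [Real.mul_rpow hη0.le hT0.le, hη, one_div, Real.inv_rpow hy0.le, ← Real.rpow_neg hy0.le, neg_neg]
      have e2 : y ^ σ' * y ^ (2 * ε) = y ^ σ := by
        rw [← Real.rpow_add hy0]
        congr 1
        rw [hε]; ring
      have e3 : T ^ (-(1:ℝ)) * T ^ (-(2 * ε)) * T ^ ε = T ^ (-(1 + ε)) := by
        rw [← Real.rpow_add hT0, ← Real.rpow_add hT0]
        congr 1; ring
      calc ‖1 / s‖ * ‖phi η s‖ ^ 2 * y ^ σ' * ‖gz s‖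
          ≤ (5 * T ^ (-(1:ℝ))) * (550 * (η * T) ^ (-(2 * ε))) * y ^ σ' * (Cf * T ^ ε) := by gcongr
        _ = (5 * 550 * Cf) * (y ^ σ' * y ^ (2 * ε)) * (T ^ (-(1:ℝ)) * T ^ (-(2 * ε)) * T ^ ε) := by
          rw [e1]; ring
        _ = _ := by rw [e2, e3]
    have hI := (integrable_decay' (a := 1 + ε) (by linarith)).const_mul (5 * 550 * Cf * y ^ σ)
    calc _ ≤ ∫ ξ : ℝ, (5 * 550 * Cf * y ^ σ) * (1 + |2 * Real.pi * ξ|) ^ (-(1 + ε)) :=
          norm_integral_le_of_norm_le hI (Eventually.of_forall hpt)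
      _ = _ := by rw [integral_const_mul]; ring
  have hfin : ((Chebyshev.psi (⌊y⌋₊ : ℝ) - ⌊y⌋₊ : ℝ) : ℂ) = (∫ ξ : ℝ, PG η x step gz (σ' + 2 * Real.pi * ξ * Complex.I)) -
      ∑ m ∈ Finset.Ioc ⌊y⌋₊ N, ((aL m : ℝ) : ℂ) * k2 (x - Real.log m) := by
    rw [← hsum, hsplit]; ring
  have hnorm : |Chebyshev.psi (⌊y⌋₊ : ℝ) - ⌊y⌋₊| ≤ 5 * 550 * Cf * I0 * y ^ σ + 20 * (20 + Real.log y) := by
    have : |Chebyshev.psi (⌊y⌋₊ : ℝ) - ⌊y⌋₊| = ‖((Chebyshev.psi (⌊y⌋₊ : ℝ) - ⌊y⌋₊ : ℝ) : ℂ)‖ := by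
      rw [Complex.norm_real, Real.norm_eq_abs]
    rw [this, hfin]
    exact (norm_sub_le _ _).trans (add_le_add hint hrest)
  have hyσ : 1 ≤ y ^ σ := Real.one_le_rpow hy (by linarith)
  have hlog2 : Real.log y ≤ y ^ σ / σ := Real.log_le_rpow_div hy0.le hσ0
  have hfl : |(⌊y⌋₊:ℝ) - y| ≤ 1 := by
    rw [abs_le]
    have h4 : y - 1 < ⌊y⌋₊ := Nat.sub_one_lt_floor y
    have h5 : (⌊y⌋₊:ℝ) ≤ y := Nat.floor_le hy0.le
    constructor <;> linarith
  have e5 : Chebyshev.psi y - y = (Chebyshev.psi (⌊y⌋₊ : ℝ) - ⌊y⌋₊) + ((⌊y⌋₊:ℝ) - y) := by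
    rw [Chebyshev.psi_eq_psi_coe_floor y]; ring
  rw [e5]
  calc _ ≤ |Chebyshev.psi (⌊y⌋₊ : ℝ) - ⌊y⌋₊| + |(⌊y⌋₊:ℝ) - y| := abs_add_le _ _
    _ ≤ (5 * 550 * Cf * I0 * y ^ σ + 20 * (20 + y ^ σ / σ)) + 1 := by
      refine add_le_add (hnorm.trans ?_) hfl
      gcongr
    _ ≤ (5 * 550 * Cf * I0 + 20 * (20 + 1 / σ) + 1) * y ^ σ := by
      have e6 : (5 * 550 * Cf * I0 + 20 * (20 + 1 / σ) + 1) * y ^ σ =
        5 * 550 * Cf * I0 * y ^ σ + 20 * (20 * y ^ σ + y ^ σ / σ) + y ^ σ := by ring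
      rw [e6]
      linarith

end

end Pool.Agent.W190.Q306
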